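import Mathlib
import Pool.Agent.H243R3.PCP.Quad

/-!
# Expander families without movable members

For every `d ≥ 15` there is a constant degree `d` expander sequence no member of which is movable.
-/

namespace Pool.Agent.Results.MP_e534f3_co.RigidExpanders

open Finset

/-! ### Definitions -/

/-- `ρ` is a realisation of the graph `Γ` with edge labels `l` in the plane (written as `ℂ`). -/
def IsRealisation {V : Type} (Γ : SimpleGraph V) (l : Sym2 V → ℝ) (ρ : V → ℂ) : Prop :=
  ∀ u v, Γ.Adj u v → ‖ρ u - ρ v‖ = l s(u, v)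

/-- Injective realisations. -/
def InjReal {V : Type} (Γ : SimpleGraph V) (l : Sym2 V → ℝ) : Type :=
  {ρ : V → ℂ // Function.Injective ρ ∧ IsRealisation Γ l ρ}

/-- Equivalence modulo the orientation preserving isometries `z ↦ a z + b`, `|a| = 1`. -/
def DirectEquiv {V : Type} (ρ₁ ρ₂ : V → ℂ) : Prop :=
  ∃ a b : ℂ, ‖a‖ = 1 ∧ ∀ v, ρ₁ v = a * ρ₂ v + b

/-- The setoid of equivalence of injective realisations. -/
def realSetoid {V : Type} (Γ : SimpleGraph V) (l : Sym2 V → ℝ) : Setoid (InjReal Γ l) where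
  r ρ₁ ρ₂ := DirectEquiv ρ₁.1 ρ₂.1
  iseqv := by
    refine ⟨fun ρ => ⟨1, 0, by simp, by simp⟩, ?_, ?_⟩
    · rintro ρ₁ ρ₂ ⟨a, b, ha, h⟩
      have ha0 : a ≠ 0 := by
        intro h0; rw [h0] at ha; simp at ha
      refine ⟨a⁻¹, -(a⁻¹ * b), by simp [ha], fun v => ?_⟩
      rw [h v]
      field_simp
      ring
    · rintro ρ₁ ρ₂ ρ₃ ⟨a, b, ha, h⟩ ⟨a', b', ha', h'⟩
      refine ⟨a * a', a * b' + b, by simp [ha, ha'], fun v => ?_⟩
      rw [h v, h' v]
      ring

/-- `Γ` is movable: for some positive labelling there are infinitely many classes of injective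
realisations. -/
def Movable {V : Type} (Γ : SimpleGraph V) : Prop :=
  ∃ l : Sym2 V → ℝ, (∀ e ∈ Γ.edgeSet, 0 < l e) ∧ Infinite (Quotient (realSetoid Γ l))

open Classical in
/-- The number of edges with exactly one endpoint in `S` (the endpoint in `S` is listed first). -/
noncomputable def edgeBoundary {V : Type} [Fintype V] (Γ : SimpleGraph V) (S : Finset V) : ℕ :=
  (univ.filter (fun e : V × V => e.1 ∈ S ∧ e.2 ∉ S ∧ Γ.Adj e.1 e.2)).card

/-- Constant degree `d` expander sequences of connected graphs. -/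
structure IsExpanderSequence (d : ℕ) (V : ℕ → Type) [∀ n, Fintype (V n)]
    (Γ : ∀ n, SimpleGraph (V n)) : Prop where
  connected : ∀ n, (Γ n).Connected
  regular : ∀ n v, ((Γ n).neighborSet v).ncard = d
  growing : Filter.Tendsto (fun n => Fintype.card (V n)) Filter.atTop Filter.atTop
  expanding : ∃ ε : ℝ, 0 < ε ∧ ∀ n, ∀ S : Finset (V n), 0 < S.card →
    2 * S.card ≤ Fintype.card (V n) → ε * S.card ≤ edgeBoundary (Γ n) S

/-! ### Circles -/

lemma circles_finite (p q : ℂ) (hpq : p ≠ q) (r s : ℝ) :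
    {z : ℂ | ‖z - p‖ = r ∧ ‖z - q‖ = s}.Finite := by
  by_cases h : ({z : ℂ | ‖z - p‖ = r ∧ ‖z - q‖ = s}).Subsingleton
  · exact h.finite
  · rw [Set.not_subsingleton_iff] at h
    obtain ⟨x, hx, y, hy, hxy⟩ := h
    have hfin : Module.finrank ℝ ℂ = 2 := Complex.finrank_real_complex
    haveI : Fact (Module.finrank ℝ ℂ = 2) := ⟨hfin⟩
    refine (Set.toFinite {x, y}).subset ?_
    intro z hz
    have := EuclideanGeometry.eq_of_dist_eq_of_dist_eq_of_finrank_eq_two (P := ℂ) (V := ℂ)
      (c₁ := p) (c₂ := q) (p₁ := x) (p₂ := y) (p := z) (r₁ := r) (r₂ := s) hfin hpq hxy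
      (by rw [dist_eq_norm]; exact hx.1) (by rw [dist_eq_norm]; exact hy.1)
      (by rw [dist_eq_norm]; exact hz.1) (by rw [dist_eq_norm]; exact hx.2)
      (by rw [dist_eq_norm]; exact hy.2) (by rw [dist_eq_norm]; exact hz.2)
    rcases this with h | h
    · exact Or.inl h
    · exact Or.inr h

/-! ### Rigid graphs -/

/-- Normalised injective realisations. -/
def NormReal {V : Type} (Γ : SimpleGraph V) (l : Sym2 V → ℝ) (u₀ v₀ : V) : Set (V → ℂ) :=
  {ρ | Function.Injective ρ ∧ IsRealisation Γ l ρ ∧ ρ u₀ = 0 ∧ ρ v₀ = (l s(u₀, v₀) : ℂ)}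

/-- The position of `x` is determined up to finitely many choices. -/
def Det {V : Type} (Γ : SimpleGraph V) (l : Sym2 V → ℝ) (u₀ v₀ : V) (x : V) : Prop :=
  ((fun ρ : V → ℂ => ρ x) '' NormReal Γ l u₀ v₀).Finite

lemma det_u {V : Type} (Γ : SimpleGraph V) (l : Sym2 V → ℝ) (u₀ v₀ : V) : Det Γ l u₀ v₀ u₀ := by
  refine (Set.finite_singleton (0 : ℂ)).subset ?_
  rintro _ ⟨ρ, hρ, rfl⟩
  exact hρ.2.2.1

lemma det_v {V : Type} (Γ : SimpleGraph V) (l : Sym2 V → ℝ) (u₀ v₀ : V) : Det Γ l u₀ v₀ v₀ := by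
  refine (Set.finite_singleton (l s(u₀, v₀) : ℂ)).subset ?_
  rintro _ ⟨ρ, hρ, rfl⟩
  exact hρ.2.2.2

lemma det_step {V : Type} (Γ : SimpleGraph V) (l : Sym2 V → ℝ) (u₀ v₀ : V) {x y z : V}
    (hy : Det Γ l u₀ v₀ y) (hz : Det Γ l u₀ v₀ z) (hyz : y ≠ z) (h1 : Γ.Adj x y)
    (h2 : Γ.Adj x z) : Det Γ l u₀ v₀ x := by
  have hfin : (⋃ pq ∈ (((fun ρ : V → ℂ => ρ y) '' NormReal Γ l u₀ v₀) ×ˢ
      ((fun ρ : V → ℂ => ρ z) '' NormReal Γ l u₀ v₀)),
      {w : ℂ | pq.1 ≠ pq.2 ∧ ‖w - pq.1‖ = l s(x, y) ∧ ‖w - pq.2‖ = l s(x, z)}).Finite := by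
    refine Set.Finite.biUnion (hy.prod hz) ?_
    rintro ⟨p, q⟩ _
    by_cases hpq : p = q
    · convert Set.finite_empty
      ext w
      simp [hpq]
    · refine (circles_finite p q hpq (l s(x, y)) (l s(x, z))).subset ?_
      rintro w ⟨_, h⟩
      exact h
  refine hfin.subset ?_
  rintro _ ⟨ρ, hρ, rfl⟩
  simp only [Set.mem_iUnion]
  refine ⟨(ρ y, ρ z), ⟨⟨ρ, hρ, rfl⟩, ⟨ρ, hρ, rfl⟩⟩, ?_, hρ.2.1 x y h1, hρ.2.1 x z h2⟩
  exact fun h => hyz (hρ.1 h)

lemma not_movable_of_det {V : Type} [Finite V] (Γ : SimpleGraph V) (u₀ v₀ : V)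
    (huv : Γ.Adj u₀ v₀) (h : ∀ (l : Sym2 V → ℝ) (x : V), Det Γ l u₀ v₀ x) : ¬ Movable Γ := by
  rintro ⟨l, hl, hinf⟩
  have hfin : (NormReal Γ l u₀ v₀).Finite := by
    refine (Set.Finite.pi' (fun x => h l x)).subset ?_
    intro ρ hρ x
    exact ⟨ρ, hρ, rfl⟩
  haveI := hfin.to_subtype
  refine not_finite_iff_infinite.2 hinf ?_
  refine Finite.of_surjective (fun ρ : NormReal Γ l u₀ v₀ =>
    (Quotient.mk (realSetoid Γ l) ⟨ρ.1, ρ.2.1, ρ.2.2.1⟩)) ?_
  intro q
  induction q using Quotient.inductionOn with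
  | h ρ =>
    obtain ⟨ρ, hinj, hre⟩ := ρ
    have hne : ρ v₀ - ρ u₀ ≠ 0 := by
      intro h0
      exact huv.ne (hinj (sub_eq_zero.1 h0)).symm
    have hL := hre u₀ v₀ huv
    have hLpos : 0 < l s(u₀, v₀) := hl _ huv
    set L : ℝ := l s(u₀, v₀) with hLdef
    have hL' : ‖ρ v₀ - ρ u₀‖ = L := by rw [norm_sub_rev]; exact hL
    have ha : ‖(L : ℂ) / (ρ v₀ - ρ u₀)‖ = 1 := by
      rw [norm_div, hL', Complex.norm_real, Real.norm_of_nonneg hLpos.le]
      exact div_self hLpos.ne'
    have ha0 : (L : ℂ) / (ρ v₀ - ρ u₀) ≠ 0 := by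
      intro h0; rw [h0] at ha; simp at ha
    set a : ℂ := (L : ℂ) / (ρ v₀ - ρ u₀) with hadef
    refine ⟨⟨fun v => a * ρ v + -(a * ρ u₀), ?_, ?_, ?_, ?_⟩, ?_⟩
    · intro v w hvw
      simp only [add_left_inj] at hvw
      exact hinj (mul_left_cancel₀ ha0 hvw)
    · intro v w hvw
      have : a * ρ v + -(a * ρ u₀) - (a * ρ w + -(a * ρ u₀)) = a * (ρ v - ρ w) := by ring
      rw [this, norm_mul, ha, one_mul]
      exact hre v w hvw
    · ring
    · have : a * ρ v₀ + -(a * ρ u₀) = a * (ρ v₀ - ρ u₀) := by ring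
      change a * ρ v₀ + -(a * ρ u₀) = _
      rw [this, hadef, div_mul_cancel₀ _ hne]
    · apply Quotient.sound
      exact ⟨a, -(a * ρ u₀), ha, fun v => rfl⟩

/-! ### The graphs -/

/-- The four permutations of the torus. -/
def sg (m : ℕ) : Fin 4 → Equiv.Perm (ZMod m × ZMod m)
  | 0 => ⟨fun v => (v.1 + 1, v.2), fun v => (v.1 - 1, v.2), fun v => by simp, fun v => by simp⟩
  | 1 => ⟨fun v => (v.1, v.2 + 1), fun v => (v.1, v.2 - 1), fun v => by simp, fun v => by simp⟩
  | 2 => ⟨fun v => (v.1, v.2 + v.1), fun v => (v.1, v.2 - v.1), fun v => by simp,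
      fun v => by simp⟩
  | 3 => ⟨fun v => (v.1 + v.2, v.2), fun v => (v.1 - v.2, v.2), fun v => by simp,
      fun v => by simp⟩

/-- The ports: two outgoing and two incoming ones for every permutation, and `r` more. -/
abbrev Port (r : ℕ) : Type := (Fin 4 × Bool × Bool) ⊕ Fin r

/-- The vertices. -/
abbrev Vt (m r : ℕ) : Type := (ZMod m × ZMod m) × Port r

/-- The first coordinate of the neighbour with port `q` of the vertex `(v, p)`. -/
def nb (m r : ℕ) (v : ZMod m × ZMod m) : Port r → Port r → ZMod m × ZMod m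
  | Sum.inl (a, s, _), Sum.inl (b, t, _) =>
      if a = b ∧ s ≠ t then (if s = true then sg m a v else (sg m a).symm v) else v
  | _, _ => v

lemma nb_nb (m r : ℕ) (v : ZMod m × ZMod m) (p q : Port r) :
    nb m r (nb m r v p q) q p = v := by
  rcases p with ⟨a, s, i⟩ | p <;> rcases q with ⟨b, t, j⟩ | q
  · simp only [nb]
    by_cases h : a = b ∧ s ≠ t
    · obtain ⟨rfl, h⟩ := h
      cases s <;> cases t <;> simp at h ⊢
    · have h' : ¬ (b = a ∧ t ≠ s) := fun hh => h ⟨hh.1.symm, hh.2.symm⟩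
      simp only [h, h', if_false]
  all_goals rfl

/-- The graph: a copy of the ports for every vertex of the torus. -/
def Gr (m r : ℕ) : SimpleGraph (Vt m r) where
  Adj x y := x.2 ≠ y.2 ∧ y.1 = nb m r x.1 x.2 y.2
  symm := ⟨fun x y h => ⟨h.1.symm, by rw [h.2, nb_nb]⟩⟩
  loopless := ⟨fun x h => h.1 rfl⟩

lemma Gr_adj (m r : ℕ) (x y : Vt m r) :
    (Gr m r).Adj x y ↔ x.2 ≠ y.2 ∧ y.1 = nb m r x.1 x.2 y.2 := Iff.rfl

lemma card_port (r : ℕ) : Fintype.card (Port r) = 16 + r := by
  simp [Port]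

lemma Gr_regular (m r : ℕ) (x : Vt m r) : ((Gr m r).neighborSet x).ncard = 15 + r := by
  have h : (Gr m r).neighborSet x =
      ((univ.erase x.2).image (fun q : Port r => (nb m r x.1 x.2 q, q)) : Finset (Vt m r)) := by
    ext y
    simp only [SimpleGraph.mem_neighborSet, Gr_adj, coe_image, coe_erase, coe_univ,
      Set.mem_image, Set.mem_diff, Set.mem_univ, Set.mem_singleton_iff, true_and]
    constructor
    · rintro ⟨h1, h2⟩
      exact ⟨y.2, fun h => h1 h.symm, Prod.ext h2.symm rfl⟩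
    · rintro ⟨q, hq, rfl⟩
      exact ⟨fun h => hq h.symm, rfl⟩
  rw [h, Set.ncard_coe_finset, card_image_of_injective, card_erase_of_mem (mem_univ _), card_univ,
    card_port]
  · omega
  · intro a b hab
    exact (Prod.ext_iff.1 hab).2

/-- Adjacent ports of one cloud. -/
lemma adj_in (m r : ℕ) (v : ZMod m × ZMod m) {p q : Port r} (hpq : p ≠ q)
    (h : ∀ a s i t j, p = Sum.inl (a, s, i) → q = Sum.inl (a, t, j) → s = t) :
    (Gr m r).Adj (v, p) (v, q) := by
  refine ⟨hpq, ?_⟩
  rcases p with ⟨a, s, i⟩ | p <;> rcases q with ⟨b, t, j⟩ | q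
  · simp only [nb]
    rw [if_neg]
    rintro ⟨rfl, hst⟩
    exact hst (h a s i t j rfl rfl)
  all_goals rfl

lemma adj_out (m r : ℕ) (v : ZMod m × ZMod m) (a : Fin 4) (i j : Bool) :
    (Gr m r).Adj (v, Sum.inl (a, true, i)) (sg m a v, Sum.inl (a, false, j)) := by
  refine ⟨by simp, ?_⟩
  simp [nb]

/-! ### Propagation on the torus -/

lemma torus_ind {m : ℕ} [NeZero m] (P : ZMod m × ZMod m → Prop) (v₀ : ZMod m × ZMod m)
    (h0 : P v₀) (h : ∀ v a, P v → P (sg m a v)) (v : ZMod m × ZMod m) : P v := by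
  have h1 : ∀ (n : ℕ) (x y : ZMod m), P (x, y) → P (x + n, y) := by
    intro n
    induction n with
    | zero => intro x y hx; simpa using hx
    | succ n ih =>
      intro x y hx
      have := h _ 0 (ih x y hx)
      simp only [sg, Equiv.coe_fn_mk] at this
      push_cast
      rw [← add_assoc]
      exact this
  have h2 : ∀ (n : ℕ) (x y : ZMod m), P (x, y) → P (x, y + n) := by
    intro n
    induction n with
    | zero => intro x y hx; simpa using hx
    | succ n ih =>
      intro x y hx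
      have := h _ 1 (ih x y hx)
      simp only [sg, Equiv.coe_fn_mk] at this
      push_cast
      rw [← add_assoc]
      exact this
  have e1 := h1 (v.1 - v₀.1).val v₀.1 v₀.2 h0
  have e2 := h2 (v.2 - v₀.2).val _ _ e1
  simp only [ZMod.natCast_val, ZMod.cast_id', id_eq, add_sub_cancel] at e2
  exact e2

/-! ### Rigidity -/

lemma cloud_det {m r : ℕ} (l : Sym2 (Vt m r) → ℝ) (u₀ v₀ : Vt m r) (v : ZMod m × ZMod m)
    (a : Fin 4) (s : Bool) (h0 : Det (Gr m r) l u₀ v₀ (v, Sum.inl (a, s, false)))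
    (h1 : Det (Gr m r) l u₀ v₀ (v, Sum.inl (a, s, true))) (q : Port r) :
    Det (Gr m r) l u₀ v₀ (v, q) := by
  have hA : ∀ b t i, b ≠ a → Det (Gr m r) l u₀ v₀ (v, Sum.inl (b, t, i)) := by
    intro b t i hb
    refine det_step _ l u₀ v₀ h0 h1 (by simp) (adj_in m r v (by simp [hb]) ?_)
      (adj_in m r v (by simp [hb]) ?_)
    · intro a' s' i' t' j' e1 e2
      simp only [Sum.inl.injEq, Prod.mk.injEq] at e1 e2
      exact absurd (e1.1.trans e2.1.symm) hb
    · intro a' s' i' t' j' e1 e2
      simp only [Sum.inl.injEq, Prod.mk.injEq] at e1 e2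
      exact absurd (e1.1.trans e2.1.symm) hb
  rcases q with ⟨b, t, i⟩ | q
  · by_cases hb : b = a
    · subst hb
      obtain ⟨c, hc⟩ : ∃ c : Fin 4, c ≠ b := exists_ne b
      refine det_step _ l u₀ v₀ (hA c true false hc) (hA c true true hc) (by simp)
        (adj_in m r v (by simp [hc.symm]) ?_) (adj_in m r v (by simp [hc.symm]) ?_)
      · intro a' s' i' t' j' e1 e2
        simp only [Sum.inl.injEq, Prod.mk.injEq] at e1 e2
        exact absurd (e2.1.trans e1.1.symm) hc
      · intro a' s' i' t' j' e1 e2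
        simp only [Sum.inl.injEq, Prod.mk.injEq] at e1 e2
        exact absurd (e2.1.trans e1.1.symm) hc
    · exact hA b t i hb
  · refine det_step _ l u₀ v₀ h0 h1 (by simp) (adj_in m r v (by simp) ?_)
      (adj_in m r v (by simp) ?_)
    · intro a' s' i' t' j' e1 e2
      simp at e1
    · intro a' s' i' t' j' e1 e2
      simp at e1

lemma all_det {m r : ℕ} [NeZero m] (l : Sym2 (Vt m r) → ℝ) (x : Vt m r) :
    Det (Gr m r) l (0, Sum.inl (0, true, false)) (0, Sum.inl (0, true, true)) x := by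
  have := torus_ind (m := m) (fun v => ∀ q : Port r,
    Det (Gr m r) l (0, Sum.inl (0, true, false)) (0, Sum.inl (0, true, true)) (v, q)) 0
    (cloud_det l _ _ 0 0 true (det_u _ _ _ _) (det_v _ _ _ _)) ?_ x.1
  · exact this x.2
  · intro v a hv
    refine cloud_det l _ _ _ a false ?_ ?_
    · exact det_step _ l _ _ (hv (Sum.inl (a, true, false))) (hv (Sum.inl (a, true, true)))
        (by simp) (adj_out m r v a false false).symm (adj_out m r v a true false).symm
    · exact det_step _ l _ _ (hv (Sum.inl (a, true, false))) (hv (Sum.inl (a, true, true)))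
        (by simp) (adj_out m r v a false true).symm (adj_out m r v a true true).symm

lemma Gr_not_movable (m r : ℕ) [NeZero m] : ¬ Movable (Gr m r) := by
  refine not_movable_of_det (Gr m r) (0, Sum.inl (0, true, false)) (0, Sum.inl (0, true, true))
    (adj_in m r 0 (by simp) ?_) (fun l x => all_det l x)
  intro a s i t j e1 e2
  simp only [Sum.inl.injEq, Prod.mk.injEq] at e1 e2
  exact e1.2.1.symm.trans e2.2.1

/-! ### Connectedness -/

/-- A property of vertices that is invariant along the edges at one cloud is constant there. -/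
lemma cloud_const {m r : ℕ} (Q : Vt m r → Prop) (v : ZMod m × ZMod m)
    (h : ∀ p q, (Gr m r).Adj (v, p) (v, q) → (Q (v, p) ↔ Q (v, q))) (p q : Port r) :
    Q (v, p) ↔ Q (v, q) := by
  have key : ∀ p : Port r, Q (v, p) ↔ Q (v, Sum.inl (0, true, false)) := by
    have hA : ∀ (a b : Fin 4) (s t i j : Bool), a ≠ b →
        (Q (v, Sum.inl (a, s, i)) ↔ Q (v, Sum.inl (b, t, j))) := by
      intro a b s t i j hab
      refine h _ _ (adj_in m r v (by simp [hab]) ?_)
      intro a' s' i' t' j' e1 e2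
      simp only [Sum.inl.injEq, Prod.mk.injEq] at e1 e2
      exact absurd (e1.1.trans e2.1.symm) hab
    rintro (⟨a, s, i⟩ | p)
    · by_cases ha : a = 0
      · subst ha
        exact (hA 0 1 s true i true (by decide)).trans (hA 1 0 true true true false (by decide))
      · exact hA a 0 s true i false ha
    · refine h _ _ (adj_in m r v (by simp) ?_)
      intro a' s' i' t' j' e1 e2
      simp at e1
  exact (key p).trans (key q).symm

lemma Gr_connected (m r : ℕ) [NeZero m] : (Gr m r).Connected := by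
  have h1 : ∀ x : Vt m r, (Gr m r).Reachable (0, Sum.inl (0, true, false)) x := by
    intro x
    have := torus_ind (m := m) (fun v => ∀ q : Port r,
      (Gr m r).Reachable (0, Sum.inl (0, true, false)) (v, q)) 0 ?_ ?_ x.1
    · exact this x.2
    · intro q
      have := cloud_const (fun y => (Gr m r).Reachable (0, Sum.inl (0, true, false)) y) 0
        (fun p q hpq => ⟨fun h => h.trans hpq.reachable, fun h => h.trans hpq.symm.reachable⟩)
        (Sum.inl (0, true, false)) q
      exact this.1 (SimpleGraph.Reachable.refl _)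
    · intro v a hv q
      have := cloud_const (fun y => (Gr m r).Reachable (0, Sum.inl (0, true, false)) y) (sg m a v)
        (fun p q hpq => ⟨fun h => h.trans hpq.reachable, fun h => h.trans hpq.symm.reachable⟩)
        (Sum.inl (a, false, false)) q
      exact this.1 ((hv (Sum.inl (a, true, false))).trans (adj_out m r v a false false).reachable)
  haveI : Nonempty (Vt m r) := ⟨(0, Sum.inl (0, true, false))⟩
  exact ⟨fun x y => (h1 x).symm.trans (h1 y)⟩

/-! ### Expansion -/

lemma poincare_ind {m : ℕ} [NeZero m] (f : ZMod m × ZMod m → ℝ) (c : ℝ)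
    (h0 : ∑ z, (f z - c) = 0) :
    ∑ z, (f z - c) ^ 2 ≤ 104 * ∑ a : Fin 4, ∑ z, (f (sg m a z) - f z) ^ 2 := by
  have := Pool.Agent.H243R3.PCP.poincare (fun z => f z - c) h0
  simp only [Fin.sum_univ_four, sg, Equiv.coe_fn_mk]
  simp only [sub_sub_sub_cancel_right] at this
  linarith

open Classical in
lemma Gr_expanding (m r : ℕ) [NeZero m] (S : Finset (Vt m r)) (hS0 : 0 < S.card)
    (hS : 2 * S.card ≤ Fintype.card (Vt m r)) :
    (1 / (10000 * (16 + r)) : ℝ) * S.card ≤ edgeBoundary (Gr m r) S := by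
  set T := univ.filter (fun e : Vt m r × Vt m r => e.1 ∈ S ∧ e.2 ∉ S ∧ (Gr m r).Adj e.1 e.2)
    with hT
  have hTd : edgeBoundary (Gr m r) S = T.card := by
    unfold edgeBoundary
    rw [hT]
    congr
  rw [hTd]
  -- the touched clouds
  set X : Finset (ZMod m × ZMod m) := T.image (fun e => e.1.1) ∪ T.image (fun e => e.2.1) with hX
  have hXc : X.card ≤ 2 * T.card := by
    refine (card_union_le _ _).trans ?_
    have h1 : (T.image (fun e => e.1.1)).card ≤ T.card := card_image_le
    have h2 : (T.image (fun e => e.2.1)).card ≤ T.card := card_image_le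
    omega
  have hedge : ∀ x y : Vt m r, (Gr m r).Adj x y → x.1 ∉ X → (x ∈ S ↔ y ∈ S) := by
    intro x y hxy hx
    constructor
    · intro h1
      by_contra h2
      apply hx
      rw [hX, mem_union, mem_image, mem_image]
      left
      refine ⟨(x, y), ?_, rfl⟩
      rw [hT, mem_filter]
      exact ⟨mem_univ _, h1, h2, hxy⟩
    · intro h1
      by_contra h2
      apply hx
      rw [hX, mem_union, mem_image, mem_image]
      right
      refine ⟨(y, x), ?_, rfl⟩
      rw [hT, mem_filter]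
      exact ⟨mem_univ _, h1, h2, hxy.symm⟩
  -- the base port
  let p₀ : Port r := Sum.inl (0, true, false)
  have hcl : ∀ v, v ∉ X → ∀ p q : Port r, ((v, p) ∈ S ↔ (v, q) ∈ S) := by
    intro v hv
    exact cloud_const (fun x => x ∈ S) v (fun p q hpq => hedge (v, p) (v, q) hpq hv)
  let K : Finset (ZMod m × ZMod m) := univ.filter (fun v => (v, p₀) ∈ S)
  let f : ZMod m × ZMod m → ℝ := fun v => if v ∈ K then 1 else 0
  have hfs : ∀ v a, v ∉ X → sg m a v ∉ X → f (sg m a v) = f v := by
    intro v a hv hw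
    have h1 := hcl v hv p₀ (Sum.inl (a, true, false))
    have h2 := hedge _ _ (adj_out m r v a false false) hv
    have h3 := hcl (sg m a v) hw (Sum.inl (a, false, false)) p₀
    have h4 : v ∈ K ↔ sg m a v ∈ K := by
      simp only [K, mem_filter, mem_univ, true_and]
      exact h1.trans (h2.trans h3)
    simp only [f, h4]
  -- the energy
  have hen : ∀ a, ∑ z, (f (sg m a z) - f z) ^ 2 ≤ 2 * X.card := by
    intro a
    have hb : ∀ z, (f (sg m a z) - f z) ^ 2 ≤
        (if z ∈ X then (1 : ℝ) else 0) + (if sg m a z ∈ X then (1 : ℝ) else 0) := by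
      intro z
      by_cases h1 : z ∈ X
      · have : (f (sg m a z) - f z) ^ 2 ≤ 1 := by
          simp only [f]
          split_ifs <;> norm_num
        rw [if_pos h1]
        split_ifs <;> linarith
      · by_cases h2 : sg m a z ∈ X
        · have : (f (sg m a z) - f z) ^ 2 ≤ 1 := by
            simp only [f]
            split_ifs <;> norm_num
          rw [if_neg h1, if_pos h2]
          linarith
        · rw [hfs z a h1 h2, if_neg h1, if_neg h2]
          simp
    refine (Finset.sum_le_sum (fun z _ => hb z)).trans ?_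
    rw [Finset.sum_add_distrib, Equiv.sum_comp (sg m a) (fun z => if z ∈ X then (1 : ℝ) else 0)]
    simp
    linarith
  have hen4 : ∑ a : Fin 4, ∑ z, (f (sg m a z) - f z) ^ 2 ≤ 8 * X.card := by
    refine (Finset.sum_le_sum (fun a _ => hen a)).trans ?_
    simp
    linarith
  -- the mean
  set N : ℕ := Fintype.card (ZMod m × ZMod m) with hN
  have hNpos : 0 < N := Fintype.card_pos
  have hNr : (0 : ℝ) < N := by exact_mod_cast hNpos
  set k : ℝ := (K.card : ℝ) with hk
  have hsf : ∑ z, f z = k := by simp [f, hk]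
  have hsf2 : ∑ z, f z ^ 2 = k := by
    have : ∀ z, f z ^ 2 = f z := by
      intro z
      simp only [f]
      split_ifs <;> norm_num
    simp only [this, hsf]
  have hmean : ∑ z, (f z - k / N) = 0 := by
    rw [Finset.sum_sub_distrib, hsf, Finset.sum_const, card_univ, ← hN, nsmul_eq_mul]
    field_simp
    ring
  have hvar : ∑ z, (f z - k / N) ^ 2 = k - k ^ 2 / N := by
    have : ∀ z, (f z - k / N) ^ 2 = f z ^ 2 - 2 * (k / N) * f z + (k / N) ^ 2 := fun z => by ring
    simp only [this]
    rw [Finset.sum_add_distrib, Finset.sum_sub_distrib, hsf2, ← Finset.mul_sum, hsf,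
      Finset.sum_const, card_univ, ← hN, nsmul_eq_mul]
    field_simp
    ring
  have hP := poincare_ind f (k / N) hmean
  rw [hvar] at hP
  have hP2 : k - k ^ 2 / N ≤ 832 * X.card := by linarith
  -- comparing `S` and `K`
  have hSK : S.card ≤ (16 + r) * (K.card + X.card) := by
    have hsub : S ⊆ (K ∪ X) ×ˢ (univ : Finset (Port r)) := by
      intro x hx
      rw [mem_product, mem_union]
      refine ⟨?_, mem_univ _⟩
      by_cases h : x.1 ∈ X
      · exact Or.inr h
      · left
        simp only [K, mem_filter, mem_univ, true_and]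
        exact (hcl x.1 h x.2 p₀).1 hx
    refine (card_le_card hsub).trans ?_
    rw [card_product, card_univ, card_port, mul_comm]
    exact Nat.mul_le_mul_left _ (card_union_le _ _)
  have hKS : (16 + r) * K.card ≤ S.card + (16 + r) * X.card := by
    have hsub : K ×ˢ (univ : Finset (Port r)) ⊆ S ∪ X ×ˢ (univ : Finset (Port r)) := by
      intro x hx
      rw [mem_product] at hx
      rw [mem_union, mem_product]
      by_cases h : x.1 ∈ X
      · exact Or.inr ⟨h, mem_univ _⟩
      · left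
        have h1 := hx.1
        simp only [K, mem_filter, mem_univ, true_and] at h1
        exact (hcl x.1 h p₀ x.2).1 h1
    have := (card_le_card hsub).trans (card_union_le _ _)
    rw [card_product, card_product, card_univ, card_port] at this
    linarith
  have hV : Fintype.card (Vt m r) = N * (16 + r) := by
    rw [Fintype.card_prod, card_port]
  rw [hV] at hS
  set R : ℝ := (16 + r : ℝ) with hR
  have hRpos : 0 < R := by positivity
  have hSKr : (S.card : ℝ) ≤ R * (k + X.card) := by
    have : ((S.card : ℕ) : ℝ) ≤ (((16 + r) * (K.card + X.card) : ℕ) : ℝ) := by exact_mod_cast hSK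
    push_cast at this
    exact this
  have hKSr : R * k ≤ S.card + R * X.card := by
    have : (((16 + r) * K.card : ℕ) : ℝ) ≤ ((S.card + (16 + r) * X.card : ℕ) : ℝ) := by
      exact_mod_cast hKS
    push_cast at this
    exact this
  have hSr : 2 * (S.card : ℝ) ≤ N * R := by
    have : ((2 * S.card : ℕ) : ℝ) ≤ ((N * (16 + r) : ℕ) : ℝ) := by exact_mod_cast hS
    push_cast at this
    exact this
  have hXr : (X.card : ℝ) ≤ 2 * T.card := by exact_mod_cast hXc
  have hk0 : 0 ≤ k := by positivity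
  have hk2 : k ≤ N / 2 + X.card := by
    have : R * k ≤ R * (N / 2 + X.card) := by nlinarith
    exact le_of_mul_le_mul_left this hRpos
  have hfin : (S.card : ℝ) ≤ 10000 * R * T.card := by
    by_cases hbig : (N : ℝ) ≤ 4 * X.card
    · have h1 : (S.card : ℝ) ≤ N * R / 2 := by linarith
      have h2 : (N : ℝ) * R ≤ 4 * X.card * R := mul_le_mul_of_nonneg_right hbig hRpos.le
      have h3 : (X.card : ℝ) * R ≤ 2 * T.card * R := mul_le_mul_of_nonneg_right hXr hRpos.le
      have h4 : (0 : ℝ) ≤ T.card * R := by positivity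
      nlinarith
    · push Not at hbig
      have h1 : k ≤ 3 / 4 * N := by linarith
      have h2 : k ^ 2 / N ≤ 3 / 4 * k := by
        rw [div_le_iff₀ hNr]
        nlinarith
      have h3 : k ≤ 3328 * X.card := by linarith
      have h4 : (S.card : ℝ) ≤ R * (3329 * X.card) :=
        hSKr.trans (mul_le_mul_of_nonneg_left (by linarith) hRpos.le)
      have h5 : R * (3329 * (X.card : ℝ)) ≤ R * (3329 * (2 * T.card)) :=
        mul_le_mul_of_nonneg_left (by linarith) hRpos.le
      have h6 : (0 : ℝ) ≤ T.card * R := by positivity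
      nlinarith
  rw [div_mul_eq_mul_div, one_mul, div_le_iff₀ (by positivity)]
  linarith

/-! ### The result -/

/-- For every `d ≥ 15` there is a constant degree `d` expander sequence of which no member is
movable. -/
theorem result (d : ℕ) (hd : 15 ≤ d) :
    ∃ (V : ℕ → Type) (_ : ∀ n, Fintype (V n)) (Γ : ∀ n, SimpleGraph (V n)),
      IsExpanderSequence d V Γ ∧ ∀ n, ¬ Movable (Γ n) := by
  obtain ⟨r, rfl⟩ : ∃ r, d = 15 + r := ⟨d - 15, by omega⟩
  refine ⟨fun n => Vt (n + 1) r, fun n => inferInstance, fun n => Gr (n + 1) r, ?_,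
    fun n => Gr_not_movable (n + 1) r⟩
  refine ⟨fun n => Gr_connected (n + 1) r, fun n v => Gr_regular (n + 1) r v, ?_,
    ⟨1 / (10000 * (16 + r)), by positivity, fun n S h0 h => Gr_expanding (n + 1) r S h0 h⟩⟩
  refine Filter.tendsto_atTop_mono (f := fun n => n) (fun n => ?_) Filter.tendsto_id
  rw [Fintype.card_prod, card_port, Fintype.card_prod, ZMod.card]
  nlinarith

end Pool.Agent.Results.MP_e534f3_co.RigidExpanders
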